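import Pool.Agent.R9.AC.Lim
import Pool.Agent.Results.MP_f1799f_co.DensityUpperBound

/-!
# At least 14.689 percent of the angles of a large planar point set are non-acute

For the smallest proportion `m n` of right or obtuse angles determined by `n` points of the plane,
Guy proved `1/9 ≤ L ≤ 4/27 = 0.14814...` for `L = lim m n`. We prove `L ≥ 0.14689`.

Proof. Among four points of the plane there are three which form a triangle with a non-acute angle
(or are collinear). So the triples of points which form acute triangles are a 3-graph without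
complete subgraph on four vertices, which has at most `(0.55931 / 6) n ^ 3` triples by the theorem
`MP_f1799f_co.DensityUpperBound`; every other triple contributes a non-acute angle.
-/

set_option autoImplicit false

open Finset Filter Real EuclideanGeometry

namespace Pool.Agent.Results.MP_1a78aa_co.TetrahedronDensity

/-- the Euclidean plane -/
abbrev Plane : Type := EuclideanSpace ℝ (Fin 2)

open scoped Classical in
/-- The non-acute angles of `X`: pairs of a vertex `b` in `X` and a set `{a, c}` of two other points
of `X` such that the angle `a b c` is at least `π / 2`. -/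
noncomputable def nonAcute (X : Finset Plane) : Finset (Plane × Finset Plane) :=
  (X ×ˢ X.powersetCard 2).filter fun t => t.1 ∉ t.2 ∧ ∃ a c : Plane, t.2 = {a, c} ∧
    π / 2 ≤ ∠ a t.1 c

/-- the smallest proportion of non-acute angles of `n` points of the plane -/
noncomputable def m (n : ℕ) : ℝ :=
  sInf {x : ℝ | ∃ X : Finset Plane, X.card = n ∧
    x = ((nonAcute X).card : ℝ) / ((n : ℝ) * (n - 1) * (n - 2) / 2)}

theorem bound : Pool.Agent.R9.AC.Bound 55931 600000 :=
  fun n H h3 hK => Pool.Agent.Results.MP_f1799f_co.DensityUpperBound.edges n H h3 hK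

/-- Every finite set `X` of points of the plane has at least `C(|X|, 3) - (0.55931 / 6) |X|^3`
non-acute angles; so `m n ≥ (1 - 0.55931) / 3 - 2 / n` for `n ≥ 5`, and the limit `L` of `m n` is
at least `0.14689`. -/
theorem result :
    (∀ X : Finset Plane, ((X.card.choose 3 : ℕ) : ℝ) - 0.55931 / 6 * (X.card : ℝ) ^ 3 ≤
      ((nonAcute X).card : ℝ)) ∧
    (∀ n : ℕ, 5 ≤ n → (1 - 0.55931) / 3 - 2 / (n : ℝ) ≤ m n) ∧
    ∀ L : ℝ, Tendsto m atTop (nhds L) → (1 - 0.55931) / 3 ≤ L ∧ 0.14689 ≤ L := by
  have hc : ((55931 : ℕ) : ℝ) / ((600000 : ℕ) : ℝ) = (0.55931 : ℝ) / 6 := by norm_num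
  refine ⟨fun X => ?_, fun n hn => ?_, fun L hL => ?_⟩
  · have h := Pool.Agent.R9.AC.count_real bound (by norm_num) X
    rw [hc] at h
    exact h
  · exact Pool.Agent.R9.AC.ge_minProp bound (by norm_num) 0.55931 hc (by norm_num) (by norm_num) n hn
  · have h := Pool.Agent.R9.AC.limit_ge bound (by norm_num) 0.55931 hc (by norm_num) (by norm_num)
      L hL
    refine ⟨h, le_trans (by norm_num) h⟩

end Pool.Agent.Results.MP_1a78aa_co.TetrahedronDensity
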